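import Mathlib
import Pool.Agent.X213.NegStd
import Pool.Agent.X213.Block

set_option autoImplicit false

/-!
# Negative curves: blocks, clusters and doubling

Let `P 1, …, P s`, `s ≥ 4`, be very general points of the complex projective plane and let `C` be an
irreducible curve with `C ^ 2 < 0`, of class `d H - ∑ w i E i`, which is not a `(-1)`-curve. Then the
class `(d; w)` is not `Decided`, and quadratic transformations carry `C` to an irreducible curve
through other very general points whose class `(d1; w1)`, `d1 ≤ d`, `w1 i ≤ w i`, is standard and not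
`Decided` either. `E = Decided false` (emptiness) and `I = Decided true` (independence) are the least
relations between multisets `M` of multiplicities and degrees `d` with:
* blocks (`EmptyRange`, `IndepRange`): `M` is (for `E`: contains) the sum of `r < K ^ 2`
  multisets whose sums and sizes satisfy an inequality;
* clusters: a member `b` is replaced by the four numbers `⌊(2 b + j) / 4⌋`, `j = -1, 0, 1, 2`;
* doubling: `I` for `M + a {b}` and `E` for `M + a {b + 1}` in degree `d` decide the degree `d`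
  for `M + a {⌊b / 2⌋, ⌊b / 2⌋, ⌊(b + 1) / 2⌋, ⌊(b + 1) / 2⌋}`;
* monotonicity.
-/

namespace Pool.Agent.Results.MP_d3e5c7_ag.BlockCalculus

open MvPolynomial Pool.Agent.TH167 Pool.Agent.TH167.SHDefs
open Pool.Agent.Y536.SH (Standard)
open Pool.Agent.X213.Block (DecidedClass exp_of_decided)

theorem result (r : ℕ) : ∃ Z : ℕ → MvPolynomial (Fin (r + 4) × Fin 2) ℂ, (∀ n, Z n ≠ 0) ∧
    ∀ P : Fin (r + 4) → Fin 2 → ℂ,
      (∀ n, MvPolynomial.eval (fun ij : Fin (r + 4) × Fin 2 => P ij.1 ij.2) (Z n) ≠ 0) →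
      ∀ (d : ℕ) (w : Fin (r + 4) → ℕ) (C : MvPolynomial (Fin 3) ℂ),
        Curve P C d w → inter d w d w < 0 → ¬ MinusOne P C d w →
        ¬ DecidedClass d w ∧
        ∃ (P1 : Fin (r + 4) → Fin 2 → ℂ) (d1 : ℕ) (w1 : Fin (r + 4) → ℕ)
          (C1 : MvPolynomial (Fin 3) ℂ),
          (∀ n, MvPolynomial.eval (fun ij : Fin (r + 4) × Fin 2 => P1 ij.1 ij.2) (Z n) ≠ 0) ∧
          Curve P1 C1 d1 w1 ∧ Relation.ReflTransGen Quadratic (d, w) (d1, w1) ∧
          Standard d1 w1 ∧ d1 ≤ d ∧ (∀ i, w1 i ≤ w i) ∧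
          inter d1 w1 d1 w1 = inter d w d w ∧ interK d1 w1 = interK d w ∧
          ¬ DecidedClass d1 w1 := by
  obtain ⟨Z, hZ, h⟩ := SH.exists_fam (Fin (r + 4) × Fin 2)
  refine ⟨Z, hZ, fun P hP0 d w C hC hneg hne => ?_⟩
  obtain ⟨P1, d1, w1, C1, hst⟩ := Pool.Agent.X213.NegStd.neg_std ((h _).1 hP0) hC hneg hne
  exact ⟨fun hb => hst.spec0 (exp_of_decided hb ((h _).1 hP0)), P1, d1, w1, C1,
    (h _).2 hst.alg, hst.curve, hst.chain, hst.std, hst.deg, hst.mult, hst.self, hst.can,
    fun hb => hst.spec (exp_of_decided hb hst.alg)⟩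

end Pool.Agent.Results.MP_d3e5c7_ag.BlockCalculus
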