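import Mathlib
import Pool.Agent.X213.NegStd
import Pool.Agent.X213.Eng4

set_option autoImplicit false

/-!
# Negative curves are controlled by their fourth largest multiplicity

Let `P 1, …, P s`, `s ≥ 4`, be very general points of the complex projective plane and let `C` be an
irreducible curve with `C ^ 2 < 0`, of class `d H - ∑ w i E i`, which is not a `(-1)`-curve. If at most
three of the multiplicities `w i` are larger than `b`, then `K C - C ^ 2 < 2 ^ 18 (b + 1) ^ 4`; so the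
arithmetic genus and `-C ^ 2` are bounded in terms of the fourth largest multiplicity alone.

Moreover quadratic transformations carry `C` to an irreducible curve of standard class `(d1; w1)`
through other very general points, and with the multiplicities `v 0 ≥ v 1 ≥ ⋯` of this curve in
decreasing order and `b = v 3`:
* `b ≥ 1`, `v 2 < 2 b ^ 2 + 3 b + 2` and `b d1 < 2 ^ 16 (b + 1) ^ 4`;
* `∑_{i ≥ 3} v i (v i + 1) < 2 ^ 18 (b + 1) ^ 4`.
So there are only finitely many standard classes `(d1; w1)` for every `b`. If `v i ≤ m` for `i ≥ 5`,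
where `m ≥ 1`, then `v 2 < 4 m ^ 2 + 8 m + 5`, and `∑_{i ≥ 3} v i (v i + 1) < 2 ^ 18 (4 m ^ 2 + 8 m + 5) ^ 4`.
-/

namespace Pool.Agent.Results.MP_d3e5c7_ag.FourthMultiplicity

open MvPolynomial Pool.Agent.TH167 Pool.Agent.TH167.SHDefs
open Pool.Agent.Y536.SH (Standard)

/-- The sum of `v i (v i + 1)` over the indices `i ≥ 3`. -/
def tail {r : ℕ} (v : Fin (r + 4) → ℕ) : ℕ :=
  ∑ i : Fin (r + 4), if 3 ≤ (i : ℕ) then v i * (v i + 1) else 0

/-- `∑_{i ≥ 3} v i (v i + 1) < 2 ^ 18 B ^ 4` and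
`(d + 1) (d + 2) < 2 ^ 17 B ^ 4 + ∑_{i < 3} v i (v i + 1)`. -/
def Small {r : ℕ} (B d : ℕ) (v : Fin (r + 4) → ℕ) : Prop :=
  tail v < 262144 * B ^ 4 ∧ (d + 1) * (d + 2) <
    131072 * B ^ 4 + (v 0 * (v 0 + 1) + v 1 * (v 1 + 1) + v 2 * (v 2 + 1))

/-- The inequalities for the class `(d; v)` with `v 0 ≥ v 1 ≥ ⋯`: with `b = v 3`, `b ≥ 1`,
`v 2 < 2 b ^ 2 + 3 b + 2`, `b d < 2 ^ 16 (b + 1) ^ 4` and `Small (b + 1)`; and, for all `m ≥ 1` with
`v i ≤ m` for all `i ≥ 5`, `v 2 < 4 m ^ 2 + 8 m + 5` and `Small (4 m ^ 2 + 8 m + 5)`. -/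
def Bounded {r : ℕ} (d : ℕ) (v : Fin (r + 4) → ℕ) : Prop :=
  0 < v 3 ∧ v 2 < 2 * v 3 ^ 2 + 3 * v 3 + 2 ∧ v 3 * d < 65536 * (v 3 + 1) ^ 4 ∧
    Small (v 3 + 1) d v ∧
    ∀ m : ℕ, 0 < m → (∀ i : Fin (r + 4), 5 ≤ (i : ℕ) → v i ≤ m) →
      v 2 < 4 * m ^ 2 + 8 * m + 5 ∧ Small (4 * m ^ 2 + 8 * m + 5) d v

theorem two_mul_choose (n : ℕ) : 2 * (n + 1).choose 2 = n * (n + 1) := by
  have h1 := Pool.Agent.H932R7.R4h.two_choose n
  rw [h1]

theorem tail_eq {r : ℕ} (v : Fin (r + 4) → ℕ) :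
    tail v = 2 * ∑ i : Fin (r + 4), if 3 ≤ (i : ℕ) then (v i + 1).choose 2 else 0 := by
  unfold tail
  rw [Finset.mul_sum]
  refine Finset.sum_congr rfl fun i _ => ?_
  split_ifs
  · rw [two_mul_choose]
  · rfl

theorem split_sum {r : ℕ} (f : Fin (r + 4) → ℕ) :
    ∑ i, f i = f 0 + f 1 + f 2 + ∑ i : Fin (r + 4), if 3 ≤ (i : ℕ) then f i else 0 := by
  have h1 : ∀ g : Fin (r + 4) → ℕ, ∑ i, g i = g 0 + g 1 + g 2 + ∑ i : Fin (r + 1), g (Fin.natAdd 3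
      i |>.cast (by omega)) := by
    intro g
    rw [Fin.sum_univ_succ, Fin.sum_univ_succ, Fin.sum_univ_succ]
    rw [← add_assoc, ← add_assoc]
    congr 1
    refine Finset.sum_congr rfl fun i _ => ?_
    congr 1
    ext
    simp
  rw [h1 f, h1 (fun i => if 3 ≤ (i : ℕ) then f i else 0)]
  have n0 : ((0 : Fin (r + 4)) : ℕ) = 0 := rfl
  have n1 : ((1 : Fin (r + 4)) : ℕ) = 1 := Nat.mod_eq_of_lt (show 1 < r + 4 by omega)
  have n2 : ((2 : Fin (r + 4)) : ℕ) = 2 := Nat.mod_eq_of_lt (show 2 < r + 4 by omega)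
  rw [if_neg (by omega), if_neg (by omega), if_neg (by omega)]
  simp

theorem small_of {r B d : ℕ} {v : Fin (r + 4) → ℕ} (h : ¬ Pool.Agent.X213.Eng4.Big B d v) :
    Small B d v := by
  unfold Pool.Agent.X213.Eng4.Big at h
  push Not at h
  refine ⟨?_, h.1⟩
  rw [tail_eq]
  have := h.2
  omega

theorem bounded_of {r d : ℕ} {v : Fin (r + 4) → ℕ} (hv : Antitone v) (hd : v 0 + v 1 + v 2 ≤ d)
    (h : ¬ Pool.Agent.X213.Eng4.Apart d v) : Bounded d v := by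
  have n0 : ((0 : Fin (r + 4)) : ℕ) = 0 := rfl
  have n1 : ((1 : Fin (r + 4)) : ℕ) = 1 := Nat.mod_eq_of_lt (show 1 < r + 4 by omega)
  have n2 : ((2 : Fin (r + 4)) : ℕ) = 2 := Nat.mod_eq_of_lt (show 2 < r + 4 by omega)
  have n3 : ((3 : Fin (r + 4)) : ℕ) = 3 := Nat.mod_eq_of_lt (show 3 < r + 4 by omega)
  have h32 : v 3 ≤ v 2 := hv (by rw [Fin.le_def, n3, n2]; omega)
  have h21 : v 2 ≤ v 1 := hv (by rw [Fin.le_def, n2, n1]; omega)
  have h10 : v 1 ≤ v 0 := hv (by rw [Fin.le_def, n1, n0]; omega)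
  unfold Pool.Agent.X213.Eng4.Apart at h
  push Not at h
  obtain ⟨c1, c2, c3, c4⟩ := h
  have hS := small_of c3
  refine ⟨Nat.pos_of_ne_zero c1, c2, ?_, hS, fun m hm h5 => ?_⟩
  · have h2 := hS.2
    obtain ⟨t, ht⟩ : ∃ t, d = v 0 + v 1 + v 2 + t := ⟨d - (v 0 + v 1 + v 2), by omega⟩
    obtain ⟨a0, ha0⟩ : ∃ a0, v 0 = v 1 + a0 := ⟨v 0 - v 1, by omega⟩
    obtain ⟨a1, ha1⟩ : ∃ a1, v 1 = v 2 + a1 := ⟨v 1 - v 2, by omega⟩
    obtain ⟨a2, ha2⟩ : ∃ a2, v 2 = v 3 + a2 := ⟨v 2 - v 3, by omega⟩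
    obtain ⟨b, hb⟩ : ∃ b, b = v 3 := ⟨_, rfl⟩
    obtain ⟨X, hX⟩ : ∃ X, X = (v 3 + 1) ^ 4 := ⟨_, rfl⟩
    rw [← hX] at h2 ⊢
    have e2 : v 2 = b + a2 := by omega
    have e1 : v 1 = b + a2 + a1 := by omega
    have e0 : v 0 = b + a2 + a1 + a0 := by omega
    rw [← hb]
    rw [e0, e1, e2] at h2 ht
    rw [ht] at h2 ⊢
    nlinarith [Nat.zero_le (b * a0), Nat.zero_le (b * a1), Nat.zero_le (b * a2), Nat.zero_le (b * t),
      Nat.zero_le (a2 * a2), Nat.zero_le (a1 * a2), Nat.zero_le (a0 * a2), Nat.zero_le (a1 * a1),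
      Nat.zero_le (a0 * a1), Nat.zero_le (a0 * t), Nat.zero_le (a1 * t), Nat.zero_le (a2 * t),
      Nat.zero_le (t * t), Nat.zero_le (b * b)]
  · obtain ⟨k1, k2⟩ := c4 m hm h5
    exact ⟨k1, small_of k2⟩

theorem result (r : ℕ) : ∃ Z : ℕ → MvPolynomial (Fin (r + 4) × Fin 2) ℂ, (∀ n, Z n ≠ 0) ∧
    ∀ P : Fin (r + 4) → Fin 2 → ℂ,
      (∀ n, MvPolynomial.eval (fun ij : Fin (r + 4) × Fin 2 => P ij.1 ij.2) (Z n) ≠ 0) →
      ∀ (d : ℕ) (w : Fin (r + 4) → ℕ) (C : MvPolynomial (Fin 3) ℂ),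
        Curve P C d w → inter d w d w < 0 → ¬ MinusOne P C d w →
        (∀ b : ℕ, (Finset.univ.filter fun i => b < w i).card ≤ 3 →
          interK d w - inter d w d w < 262144 * ((b : ℤ) + 1) ^ 4) ∧
        ∃ (P1 : Fin (r + 4) → Fin 2 → ℂ) (d1 : ℕ) (w1 : Fin (r + 4) → ℕ)
          (C1 : MvPolynomial (Fin 3) ℂ),
          (∀ n, MvPolynomial.eval (fun ij : Fin (r + 4) × Fin 2 => P1 ij.1 ij.2) (Z n) ≠ 0) ∧
          Curve P1 C1 d1 w1 ∧ Relation.ReflTransGen Quadratic (d, w) (d1, w1) ∧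
          Standard d1 w1 ∧ d1 ≤ d ∧ (∀ i, w1 i ≤ w i) ∧
          inter d1 w1 d1 w1 = inter d w d w ∧ interK d1 w1 = interK d w ∧
          ∀ σ : Equiv.Perm (Fin (r + 4)), Antitone (fun i => w1 (σ i)) →
            Bounded d1 (fun i => w1 (σ i)) := by
  obtain ⟨Z, hZ, h⟩ := SH.exists_fam (Fin (r + 4) × Fin 2)
  refine ⟨Z, hZ, fun P hP0 d w C hC hneg hne => ?_⟩
  obtain ⟨P1, d1, w1, C1, hst⟩ := Pool.Agent.X213.NegStd.neg_std ((h _).1 hP0) hC hneg hne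
  have n3 : ((3 : Fin (r + 4)) : ℕ) = 3 := Nat.mod_eq_of_lt (show 3 < r + 4 by omega)
  have hdeg := fun σ => Pool.Agent.X213.Eng4.std_sorted hst.std σ
  have key : ∀ σ : Equiv.Perm (Fin (r + 4)), Antitone (fun i => w1 (σ i)) →
      Bounded d1 (fun i => w1 (σ i)) := fun σ hσ =>
    bounded_of hσ (hdeg σ) fun hA =>
      hst.spec (Pool.Agent.X213.Eng4.far_exp hst.std ⟨σ, hσ, hA⟩ hst.alg)
  refine ⟨fun b hb => ?_, P1, d1, w1, C1, (h _).2 hst.alg, hst.curve, hst.chain, hst.std, hst.deg,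
    hst.mult, hst.self, hst.can, key⟩
  obtain ⟨σ, hσ⟩ := W609.CR.exists_sort w1
  have h1 : (tail fun i => w1 (σ i)) < 262144 * (w1 (σ 3) + 1) ^ 4 := (key σ hσ).2.2.2.1.1
  have h3b : w1 (σ 3) ≤ b := by
    by_contra hcon
    push Not at hcon
    have h4 : (Finset.univ.filter fun i : Fin (r + 4) => (i : ℕ) < 4).map σ.toEmbedding ⊆
        Finset.univ.filter fun i => b < w i := by
      intro x hx
      rw [Finset.mem_map] at hx
      obtain ⟨i, hi, rfl⟩ := hx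
      rw [Finset.mem_filter] at hi ⊢
      refine ⟨Finset.mem_univ _, ?_⟩
      have h5 : w1 (σ 3) ≤ w1 (σ i) := hσ (by rw [Fin.le_def, n3]; omega)
      exact lt_of_lt_of_le hcon (h5.trans (hst.mult _))
    have h5 := Finset.card_le_card h4
    rw [Finset.card_map] at h5
    have h6 : (Finset.univ.filter fun i : Fin (r + 4) => (i : ℕ) < 4).card = 4 := by
      have h7 : (Finset.univ.filter fun i : Fin (r + 4) => (i : ℕ) < 4) =
          (Finset.univ : Finset (Fin 4)).map (Fin.castLEEmb (by omega)) := by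
        ext i
        rw [Finset.mem_filter, Finset.mem_map]
        constructor
        · rintro ⟨-, hi⟩
          exact ⟨⟨i, hi⟩, Finset.mem_univ _, rfl⟩
        · rintro ⟨j, -, rfl⟩
          exact ⟨Finset.mem_univ _, j.2⟩
      rw [h7, Finset.card_map, Finset.card_univ, Fintype.card_fin]
    omega
  have h4 : interK d w - inter d w d w ≤ ((tail fun i => w1 (σ i) : ℕ) : ℤ) := by
    rw [← hst.self, ← hst.can]
    unfold inter interK
    have e1 : ∑ i, (w1 i : ℤ) * w1 i + ∑ i, (w1 i : ℤ) = ((∑ i, w1 i * (w1 i + 1) : ℕ) : ℤ) := by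
      push_cast
      rw [← Finset.sum_add_distrib]
      exact Finset.sum_congr rfl fun i _ => by ring
    have e2 : ∑ i, w1 i * (w1 i + 1) = ∑ i, w1 (σ i) * (w1 (σ i) + 1) :=
      (Equiv.sum_comp σ fun i => w1 i * (w1 i + 1)).symm
    have e4 : ∑ i, w1 (σ i) * (w1 (σ i) + 1) = w1 (σ 0) * (w1 (σ 0) + 1) +
        w1 (σ 1) * (w1 (σ 1) + 1) + w1 (σ 2) * (w1 (σ 2) + 1) + (tail fun i => w1 (σ i)) :=
      split_sum fun i => w1 (σ i) * (w1 (σ i) + 1)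
    rw [e2, e4] at e1
    obtain ⟨T, hT⟩ : ∃ T, T = tail fun i => w1 (σ i) := ⟨_, rfl⟩
    rw [← hT] at e1 ⊢
    have e3 : ((w1 (σ 0) + w1 (σ 1) + w1 (σ 2) : ℕ) : ℤ) ≤ d1 := by exact_mod_cast hdeg σ
    push_cast at e1 e3 ⊢
    nlinarith [Int.natCast_nonneg (w1 (σ 0)), Int.natCast_nonneg (w1 (σ 1)),
      Int.natCast_nonneg (w1 (σ 2)), mul_nonneg (Int.natCast_nonneg (w1 (σ 0)))
        (Int.natCast_nonneg (w1 (σ 1))), mul_nonneg (Int.natCast_nonneg (w1 (σ 0)))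
        (Int.natCast_nonneg (w1 (σ 2))), mul_nonneg (Int.natCast_nonneg (w1 (σ 1)))
        (Int.natCast_nonneg (w1 (σ 2)))]
  have h5 : (tail fun i => w1 (σ i)) < 262144 * (b + 1) ^ 4 :=
    h1.trans_le (Nat.mul_le_mul_left _ (Nat.pow_le_pow_left (by omega) 4))
  have h6 : ((tail fun i => w1 (σ i) : ℕ) : ℤ) < 262144 * ((b : ℤ) + 1) ^ 4 := by
    exact_mod_cast h5
  exact h4.trans_lt h6

end Pool.Agent.Results.MP_d3e5c7_ag.FourthMultiplicity
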