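import Mathlib
import Pool.Agent.X213.NegStd
import Pool.Agent.Y205.AV.Large

set_option autoImplicit false

/-!
# Negative curves: genus, self-intersection and reduced degree are quadratic in the multiplicity

Let `P 1, …, P s`, `s ≥ 4`, be very general points of the complex projective plane and let `C` be an
irreducible curve with `C ^ 2 < 0`, of class `d H - ∑ w i E i`, which is not a `(-1)`-curve. If
`w i ≤ μ` for all `i`, then `K C - C ^ 2 < 10011 (μ + 1) ^ 2`; so the arithmetic genus of `C` is less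
than `5006 (μ + 1) ^ 2` and `C ^ 2 > - 10011 (μ + 1) ^ 2`.

Moreover quadratic transformations carry `C` to an irreducible curve of standard class `(d1; w1)`,
`d1 ≤ d`, `w1 i ≤ w i`, through other very general points, and for every set `S` of points with
`w1 i ≤ 1` off `S` and `w1 i ≤ ν` on `S`, with `χ = (d1 + 2).choose 2 - ∑_S (w1 i + 1).choose 2`,
* `∑_S w1 i + 4 |χ| < 25000 (ν + 1) ^ 2`;
* `|χ| < ∑_S w1 i + 26 (ν + 1) ^ 2`;
* `∑_S w1 i ^ 2 < 40000 t ν ^ 2`, if `S` is not empty, `w1 i ≥ 1` on `S`, and `t` is the number of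
  the different values there.
If `w1 i ≤ ν` for all `i`, then `3 d1 < ∑ w1 i < 25000 (ν + 1) ^ 2`.
-/

namespace Pool.Agent.Results.MP_d3e5c7_ag.GenusBound

open MvPolynomial Pool.Agent.TH167 Pool.Agent.TH167.SHDefs
open Pool.Agent.Y536.SH (Standard)

/-- `χ = (d + 2).choose 2 - ∑_{i ∈ S} (w i + 1).choose 2`. -/
def chiOn {s : ℕ} (S : Finset (Fin s)) (d : ℕ) (w : Fin s → ℕ) : ℤ :=
  ((d + 2).choose 2 : ℤ) - ∑ i ∈ S, ((w i + 1).choose 2 : ℤ)

theorem result (r : ℕ) : ∃ Z : ℕ → MvPolynomial (Fin (r + 4) × Fin 2) ℂ, (∀ n, Z n ≠ 0) ∧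
    ∀ P : Fin (r + 4) → Fin 2 → ℂ,
      (∀ n, MvPolynomial.eval (fun ij : Fin (r + 4) × Fin 2 => P ij.1 ij.2) (Z n) ≠ 0) →
      ∀ (d : ℕ) (w : Fin (r + 4) → ℕ) (C : MvPolynomial (Fin 3) ℂ),
        Curve P C d w → inter d w d w < 0 → ¬ MinusOne P C d w →
        (∀ μ : ℕ, (∀ i, w i ≤ μ) →
          interK d w - inter d w d w < 10011 * ((μ : ℤ) + 1) ^ 2 ∧
          (d - 1) * (d - 2) - ∑ i, (w i : ℤ) * ((w i : ℤ) - 1) < 10011 * ((μ : ℤ) + 1) ^ 2) ∧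
        ∃ (P1 : Fin (r + 4) → Fin 2 → ℂ) (d1 : ℕ) (w1 : Fin (r + 4) → ℕ)
          (C1 : MvPolynomial (Fin 3) ℂ),
          (∀ n, MvPolynomial.eval (fun ij : Fin (r + 4) × Fin 2 => P1 ij.1 ij.2) (Z n) ≠ 0) ∧
          Curve P1 C1 d1 w1 ∧ Relation.ReflTransGen Quadratic (d, w) (d1, w1) ∧
          Standard d1 w1 ∧ d1 ≤ d ∧ (∀ i, w1 i ≤ w i) ∧
          inter d1 w1 d1 w1 = inter d w d w ∧ interK d1 w1 = interK d w ∧
          (∀ ν : ℕ, (∀ i, w1 i ≤ ν) → 3 * (d1 : ℤ) < ∑ i, (w1 i : ℤ) ∧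
            ∑ i, (w1 i : ℤ) < 25000 * ((ν : ℤ) + 1) ^ 2) ∧
          ∀ (S : Finset (Fin (r + 4))) (ν : ℕ), (∀ i ∉ S, w1 i ≤ 1) → (∀ i ∈ S, w1 i ≤ ν) →
            ∑ i ∈ S, (w1 i : ℤ) + 4 * |chiOn S d1 w1| < 25000 * ((ν : ℤ) + 1) ^ 2 ∧
            |chiOn S d1 w1| < ∑ i ∈ S, (w1 i : ℤ) + 26 * ((ν : ℤ) + 1) ^ 2 ∧
            (S.Nonempty → (∀ i ∈ S, 1 ≤ w1 i) →
              ∑ i ∈ S, w1 i ^ 2 < 40000 * (S.image w1).card * ν ^ 2) := by
  obtain ⟨Z, hZ, h⟩ := SH.exists_fam (Fin (r + 4) × Fin 2)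
  refine ⟨Z, hZ, fun P hP0 d w C hC hneg hne => ?_⟩
  obtain ⟨P1, d1, w1, C1, hst⟩ := Pool.Agent.X213.NegStd.neg_std ((h _).1 hP0) hC hneg hne
  have hlarge : ¬ Pool.Agent.Y205.AV.Large d1 w1 := fun hL =>
    hst.spec (Pool.Agent.Y205.AV.large_exp hL hst.alg)
  have key : ∀ (S : Finset (Fin (r + 4))) (ν : ℕ), (∀ i ∉ S, w1 i ≤ 1) → (∀ i ∈ S, w1 i ≤ ν) →
      ∑ i ∈ S, (w1 i : ℤ) + 4 * |chiOn S d1 w1| < 25000 * ((ν : ℤ) + 1) ^ 2 ∧
      |chiOn S d1 w1| < ∑ i ∈ S, (w1 i : ℤ) + 26 * ((ν : ℤ) + 1) ^ 2 ∧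
      (S.Nonempty → (∀ i ∈ S, 1 ≤ w1 i) →
        ∑ i ∈ S, w1 i ^ 2 < 40000 * (S.image w1).card * ν ^ 2) := by
    intro S ν h1 h2
    refine ⟨?_, ?_, fun h3 h4 => ?_⟩
    · by_contra hcon
      exact hlarge ⟨S, ν, _, h2, h1, le_rfl, Or.inl (not_lt.1 hcon)⟩
    · by_contra hcon
      exact hlarge ⟨S, ν, _, h2, h1, le_rfl, Or.inr (Or.inl (not_lt.1 hcon))⟩
    · by_contra hcon
      exact hlarge ⟨S, ν, _, h2, h1, le_rfl, Or.inr (Or.inr ⟨h3, h4, not_lt.1 hcon⟩)⟩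
  have hchi : chiOn Finset.univ d1 w1 = SH.chi d1 w1 := rfl
  refine ⟨fun μ hμ => ?_, P1, d1, w1, C1, (h _).2 hst.alg, hst.curve, hst.chain, hst.std, hst.deg,
    hst.mult, hst.self, hst.can, fun ν hν => ?_, key⟩
  · obtain ⟨k1, k2, -⟩ := key Finset.univ μ (fun i hi => absurd (Finset.mem_univ i) hi)
      fun i _ => (hst.mult i).trans (hμ i)
    rw [hchi, abs_of_nonpos hst.chi0] at k1 k2
    have k3 := hst.chi
    have hmu : (1 : ℤ) ≤ μ := by
      -- some multiplicity is positive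
      by_contra hcon
      have h0 : μ = 0 := by
        have : (0 : ℤ) ≤ μ := Int.natCast_nonneg μ
        omega
      have h1 : ∀ i, w1 i = 0 := fun i => by
        have := (hst.mult i).trans (hμ i)
        omega
      have h2 := hst.canPos
      unfold interK at h2
      rw [Finset.sum_congr rfl fun i _ => by rw [h1 i]] at h2
      simp at h2
      omega
    have k4 : interK d w - inter d w d w < 10011 * ((μ : ℤ) + 1) ^ 2 := by
      rw [← hst.self, ← hst.can, k3]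
      nlinarith
    refine ⟨k4, lt_of_le_of_lt ?_ k4⟩
    have k5 : (d - 1) * (d - 2) - ∑ i, (w i : ℤ) * ((w i : ℤ) - 1) =
        inter d w d w + interK d w + 2 := by
      unfold inter interK
      have : ∀ i, (w i : ℤ) * ((w i : ℤ) - 1) = (w i : ℤ) * w i - w i := fun i => by ring
      rw [Finset.sum_congr rfl fun i _ => this i, Finset.sum_sub_distrib]
      ring
    rw [k5]
    omega
  · obtain ⟨k1, -, -⟩ := key Finset.univ ν (fun i hi => absurd (Finset.mem_univ i) hi)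
      fun i _ => hν i
    have h2 := hst.canPos
    unfold interK at h2
    have h3 := abs_nonneg (chiOn Finset.univ d1 w1)
    exact ⟨by linarith, by linarith⟩

end Pool.Agent.Results.MP_d3e5c7_ag.GenusBound
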